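import Pool.Agent.W2helper95.EqMain

/-!
# The divisibility theorem for complete equipartite graphs

The complete equipartite graph with `r` parts of size `n` has an isomorphic factorisation into `t`
factors if and only if `t` divides the number `n ^ 2 * r.choose 2` of its edges.

Sketch of the proof. By a blow-up one may suppose that `n` divides `t`. The graph on the residues
modulo `t` (if `t` is odd or `n` is even) or modulo `2 t` (otherwise), whose parts are the residue
classes modulo `t / n`, respectively modulo `2 t / n`, is factorised cyclically, compatibly with a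
division of its vertices into `t` classes of equal size; so it can be joined to every graph that has
a factorisation. What remains are graphs with at most `t` vertices, which have an equitable proper
edge colouring with `t` colours, and, for `t` even and `n` odd, graphs with more than `t` and fewer
than `2 t` vertices. The latter are factorised into stars with `m` disjoint edges between leaves:
`t / n` of the parts are the classes modulo `t / n` of the residues modulo `t`, which are the
centres of the stars, and the other parts have a proper edge colouring in which one half of the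
colours have `m - 1` edges and one half `m` edges.
-/

namespace Pool.Agent.Results.MP_3a76f9_co.DivisibilityTheorem

open SimpleGraph

/-- The spanning subgraphs `F 0, …, F (t - 1)` form an isomorphic factorisation of `G` into `t`
factors: their edge sets partition the edge set of `G`, and they are pairwise isomorphic. -/
def IsIsoFactorisation {V : Type} (G : SimpleGraph V) (t : ℕ) (F : Fin t → SimpleGraph V) : Prop :=
  (∀ e, e ∈ G.edgeSet ↔ ∃ k, e ∈ (F k).edgeSet) ∧
  (∀ k l, k ≠ l → Disjoint (F k).edgeSet (F l).edgeSet) ∧
  ∀ k l, Nonempty (F k ≃g F l)

/-- `G` is divisible by `t`: it has an isomorphic factorisation into `t` factors. -/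
def Divisible {V : Type} (G : SimpleGraph V) (t : ℕ) : Prop :=
  ∃ F : Fin t → SimpleGraph V, IsIsoFactorisation G t F

open Pool.Agent.W2helper95.EQ

theorem divisible_of_HF {V A : Type} {π : V → A} {t : ℕ} (h : HF π (Fin t)) :
    Divisible (SimpleGraph.comap π ⊤) t := by
  obtain ⟨c, hc, hs⟩ := h
  let F : Fin t → SimpleGraph V := fun k =>
    { Adj := fun u v => π u ≠ π v ∧ c u v = k
      symm := ⟨fun u v h => ⟨h.1.symm, by rw [hc v u]; exact h.2⟩⟩
      loopless := ⟨fun u h => h.1 rfl⟩ }
  refine ⟨F, ?_, ?_, ?_⟩
  · intro e
    induction e with | _ u v
    simp only [mem_edgeSet]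
    constructor
    · intro h
      exact ⟨c u v, by simpa using h, rfl⟩
    · rintro ⟨k, h, -⟩
      simpa using h
  · intro k l hkl
    rw [Set.disjoint_left]
    intro e
    induction e with | _ u v
    intro h1 h2
    exact hkl (h1.2.symm.trans h2.2)
  · intro k l
    obtain ⟨σ, hσ⟩ := hs k l
    exact ⟨⟨σ, fun {u v} => (hσ u v).symm⟩⟩

theorem dvd_of_divisible {V : Type} [Fintype V] [DecidableEq V] {G : SimpleGraph V}
    [DecidableRel G.Adj] {t : ℕ} (h : Divisible G t) : t ∣ G.edgeFinset.card := by
  classical
  obtain ⟨F, h1, h2, h3⟩ := h
  rcases Nat.eq_zero_or_pos t with rfl | ht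
  · have : G.edgeFinset = ∅ := by
      rw [Finset.eq_empty_iff_forall_notMem]
      intro e he
      rw [mem_edgeFinset, h1] at he
      exact he.choose.elim0
    rw [this]
    simp
  · have e1 : G.edgeFinset = Finset.univ.biUnion (fun k => (F k).edgeFinset) := by
      ext e
      rw [mem_edgeFinset, h1]
      simp
    rw [e1, Finset.card_biUnion]
    · have e2 : ∀ k, (F k).edgeFinset.card = (F ⟨0, ht⟩).edgeFinset.card := by
        intro k
        obtain ⟨f⟩ := h3 k ⟨0, ht⟩
        exact f.card_edgeFinset_eq
      simp_rw [e2]
      simp
    · intro k _ l _ hkl
      rw [Function.onFun, Finset.disjoint_left]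
      intro e hk hl
      rw [mem_edgeFinset] at hk hl
      exact Set.disjoint_left.1 (h2 k l hkl) hk hl

/-- **Main theorem.** For all `r, n, t ≥ 1` the complete equipartite graph with `r` parts of size
`n` has an isomorphic factorisation into `t` factors if and only if `t` divides its number
`n ^ 2 * r.choose 2` of edges. -/
theorem result : ∀ r n t : ℕ, 1 ≤ r → 1 ≤ n → 1 ≤ t →
    (Divisible (completeEquipartiteGraph r n) t ↔ t ∣ n ^ 2 * r.choose 2) := by
  intro r n t _ hn ht
  constructor
  · intro h
    have := dvd_of_divisible h
    rwa [card_edgeFinset_completeEquipartiteGraph, mul_comm] at this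
  · intro h
    have : NeZero t := ⟨by omega⟩
    have h1 : HF (Prod.fst : Fin r × Fin n → Fin r) (ZMod t) := main hn ht h
    exact divisible_of_HF (h1.congr (Equiv.refl _) (fun _ _ => Iff.rfl)
      (Fintype.equivOfCardEq (by rw [ZMod.card, Fintype.card_fin])))

end Pool.Agent.Results.MP_3a76f9_co.DivisibilityTheorem
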